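import Pool.Agent.W662.CB.All
import Pool.Agent.W662.CB.Fdefs

set_option autoImplicit false

open MeasureTheory
open scoped InnerProductSpace
open Pool.Agent.W662.CB

namespace Pool.Agent.Results.MP_853c37_an.IrreducibleCores

/-- **Irreducible continuous cores force trivial modular fixed points in the relative
bicentralizer.** Let `N ⊂ M` be von Neumann algebras on `H`, `ξ` a unit vector cyclic and
separating for `M`, `φ` its vector state, `U_t = Δ^{it}` its modular unitaries and `E` a
conditional expectation of `M` onto `N` with `φ ∘ E = φ`. If the inclusion of the continuous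
cores `c(N) ⊂ c(M)` (on `L²(ℝ; H)`) is irreducible then every element of the relative
bicentralizer `B(N ⊂ M, φ)` fixed by the modular automorphism group is a scalar. -/
theorem result (H : Type) [NormedAddCommGroup H] [InnerProductSpace ℂ H] [CompleteSpace H]
    (M N : VonNeumannAlgebra H) (ξ : H) (U : ℝ → H →L[ℂ] H) (E : (H →L[ℂ] H) → (H →L[ℂ] H))
    (hNM : ∀ x : H →L[ℂ] H, x ∈ N → x ∈ M) (hξ : ‖ξ‖ = 1)
    (hcyc : IsCyclic M ξ) (hsep : IsSeparating M ξ) (hU : IsModular M ξ U)
    (hE : IsCondExp M N E) (hφ : ∀ x : H →L[ℂ] H, x ∈ M → vst ξ (E x) = vst ξ x)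
    (hirr : IrrIn (dcomm (coreGens (fun f : Lp H 2 (volume : Measure ℝ) => (f : ℝ → H)) N U))
      (dcomm (coreGens (fun f : Lp H 2 (volume : Measure ℝ) => (f : ℝ → H)) M U)))
    (x : H →L[ℂ] H) (hx : x ∈ relBicentralizer N M ξ) (hfix : ∀ t : ℝ, sgm U t x = x) :
    ∃ c : ℂ, x = c • (1 : H →L[ℂ] H) :=
  all H M N ξ U E hNM hξ hcyc hsep hU hE hφ (coreIrr_of N M U hirr) x hx hfix

end Pool.Agent.Results.MP_853c37_an.IrreducibleCores
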